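import Pool.Agent.Lib.MP_06b617_an.EllInfty

set_option autoImplicit false

namespace Pool.Agent.Results.MP_06b617_an.Criterion

/-- Let `X` be a real Banach space ordered by a closed cone `K` (`x ≤ y` iff `y - x ∈ K`) in which
every order bounded increasing sequence has a supremum. Neither normality nor separability is
assumed. The following are equivalent: (1) every order bounded increasing sequence converges in
norm; (2) every order bounded totally ordered subset is separable (automatic if `X` is separable,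
which is Q1); (3) there is no positive isomorphic embedding of the space of bounded sequences
(bounded functions on the discrete space `ℕ` with the supremum norm). -/
theorem result {X : Type*} [NormedAddCommGroup X] [NormedSpace ℝ X] [CompleteSpace X]
    (K : Set X) (hclosed : IsClosed K)
    (hadd : ∀ x ∈ K, ∀ y ∈ K, x + y ∈ K) (hsmul : ∀ t : ℝ, 0 ≤ t → ∀ x ∈ K, t • x ∈ K)
    (hpointed : K ∩ (-K) = {0})
    (hS : ∀ x : ℕ → X, (∀ n, x (n + 1) - x n ∈ K) → (∃ v, ∀ n, v - x n ∈ K) →
      ∃ s, (∀ n, s - x n ∈ K) ∧ ∀ v, (∀ n, v - x n ∈ K) → v - s ∈ K) :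
    List.TFAE [
      ∀ x : ℕ → X, (∀ n, x (n + 1) - x n ∈ K) → (∃ v, ∀ n, v - x n ∈ K) →
        ∃ l, Filter.Tendsto x Filter.atTop (nhds l),
      ∀ C : Set X, (∀ x ∈ C, ∀ y ∈ C, y - x ∈ K ∨ x - y ∈ K) →
        (∃ u v, ∀ x ∈ C, x - u ∈ K ∧ v - x ∈ K) → TopologicalSpace.IsSeparable C,
      ¬ ∃ T : BoundedContinuousFunction ℕ ℝ →L[ℝ] X,
        (∀ a : BoundedContinuousFunction ℕ ℝ, (∀ n, 0 ≤ a n) → T a ∈ K) ∧
          ∃ m : ℝ, 0 < m ∧ ∀ a, m * ‖a‖ ≤ ‖T a‖] :=
  Pool.Agent.Lib.MP_06b617_an.cone_tfae K hclosed hadd hsmul hpointed hS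

end Pool.Agent.Results.MP_06b617_an.Criterion
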