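import Pool.Agent.FS.MinimalBound.Cone

set_option autoImplicit false

open Filter Topology MeasureTheory

namespace Pool.Agent.Results.MP_06b617_an.MinimalBound

open Pool.Agent.FS.MinimalBound

theorem openPos : (volume : Measure unitInterval).IsOpenPosMeasure := by
  refine ⟨fun U hU hne h0 => ?_⟩
  obtain ⟨V, hV, rfl⟩ := isOpen_induced_iff.1 hU
  obtain ⟨p, hp⟩ := hne
  have hcl : (p : ℝ) ∈ closure (Set.Ioo (0 : ℝ) 1) := by
    rw [closure_Ioo zero_ne_one]; exact p.2
  have hne' : (V ∩ Set.Ioo (0 : ℝ) 1).Nonempty := mem_closure_iff.1 hcl V hV hp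
  have hpos := (hV.inter isOpen_Ioo).measure_pos (volume : Measure ℝ) hne'
  rw [unitInterval.volume_def,
    (MeasurableEmbedding.subtype_coe measurableSet_Icc).comap_apply] at h0
  refine hpos.ne' (measure_mono_null ?_ h0)
  rintro a ⟨ha, hb⟩
  exact ⟨⟨a, Set.Ioo_subset_Icc_self hb⟩, ha, rfl⟩

noncomputable def T : C(unitInterval, ℝ) →L[ℝ] Lp ℝ 2 (volume : Measure unitInterval) :=
  ContinuousMap.toLp 2 volume ℝ

theorem T_inj : Function.Injective T := by
  have := openPos
  exact ContinuousMap.toLp_injective volume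

theorem T_nonneg (f : C(unitInterval, ℝ)) : 0 ≤ T f ↔ ∀ s, 0 ≤ f s := by
  have := openPos
  rw [← Lp.coeFn_nonneg]
  have hc : (T f : unitInterval → ℝ) =ᵐ[volume] f := ContinuousMap.coeFn_toLp volume f
  constructor
  · intro h s
    have h1 : (fun s => |f s|) =ᵐ[volume] f := by
      filter_upwards [h, hc] with a ha hb
      rw [hb] at ha
      exact abs_of_nonneg ha
    have h2 := (Continuous.ae_eq_iff_eq volume f.continuous.abs f.continuous).1 h1
    have h3 := congrFun h2 s
    rw [← h3]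
    exact abs_nonneg _
  · intro h
    filter_upwards [hc] with a ha
    rw [ha]
    exact h a

noncomputable def g (m : ℕ) : C(unitInterval, ℝ) := ⟨fun s => (s : ℝ) ^ m, by fun_prop⟩

theorem norm_T_g (m : ℕ) : ‖T (g m)‖ ^ 2 = 1 / (2 * m + 1) := by
  rw [← real_inner_self_eq_norm_sq]
  unfold T
  rw [ContinuousMap.inner_toLp]
  have : ∀ s : unitInterval, g m s * (starRingEnd ℝ) (g m s) = (s : ℝ) ^ (2 * m) := by
    intro s
    simp [g, two_mul, pow_add]
  simp only [this]
  rw [unitInterval.volume_def,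
    integral_subtype_comap measurableSet_Icc (fun a : ℝ => a ^ (2 * m)),
    integral_Icc_eq_integral_Ioc, ← intervalIntegral.integral_of_le zero_le_one, integral_pow]
  simp

theorem norm_T_g_le (n : ℕ) : ‖T (g (4 ^ n))‖ ≤ (1 / 2) ^ n := by
  refine le_of_sq_le_sq ?_ (by positivity)
  rw [norm_T_g, ← pow_mul, mul_comm n 2, pow_mul, one_div_pow, one_div_pow]
  refine one_div_le_one_div_of_le (by positivity) ?_
  have : (0 : ℝ) < 4 ^ n := by positivity
  push_cast
  norm_num
  linarith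

/-- In Q1, supremum cannot be weakened to minimal upper bound, even for a normal cone with
interior points. -/
theorem result :
    TopologicalSpace.SeparableSpace (C(unitInterval, ℝ) × ℝ) ∧
    CompleteSpace (C(unitInterval, ℝ) × ℝ) ∧
    ∃ K : Set (C(unitInterval, ℝ) × ℝ), IsClosed K ∧
      (∀ x ∈ K, ∀ y ∈ K, x + y ∈ K) ∧ (∀ t : ℝ, 0 ≤ t → ∀ x ∈ K, t • x ∈ K) ∧
      K ∩ (-K) = {0} ∧ (interior K).Nonempty ∧
      (∀ x y, x ∈ K → y - x ∈ K → ‖x‖ ≤ ‖y‖) ∧
      (∀ x : ℕ → C(unitInterval, ℝ) × ℝ, (∀ n, x (n + 1) - x n ∈ K) →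
        ∀ v, (∀ n, v - x n ∈ K) → ∃ s, (∀ n, s - x n ∈ K) ∧ v - s ∈ K ∧
          ∀ w, (∀ n, w - x n ∈ K) → s - w ∈ K → w = s) ∧
      ∃ x : ℕ → C(unitInterval, ℝ) × ℝ, (∀ n, x (n + 1) - x n ∈ K) ∧ (∃ v, ∀ n, v - x n ∈ K) ∧
        ¬ ∃ l, Tendsto x atTop (𝓝 l) := by
  refine ⟨inferInstance, inferInstance, cone {f | ∀ s, 0 ≤ f s} T, ?_, ?_, ?_, ?_, ?_, ?_, ?_, ?_⟩
  · have h1 : IsClosed {z : C(unitInterval, ℝ) × ℝ | ∀ s, 0 ≤ z.1 s} := by
      simp only [Set.ofPred_forall]
      exact isClosed_iInter fun s => isClosed_le continuous_const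
        ((ContinuousEvalConst.continuous_eval_const s).comp continuous_fst)
    have h2 : IsClosed {z : C(unitInterval, ℝ) × ℝ | ‖T z.1‖ ≤ z.2} :=
      isClosed_le (T.continuous.comp continuous_fst).norm continuous_snd
    exact h1.inter h2
  · rintro x ⟨hx, hx'⟩ y ⟨hy, hy'⟩
    refine ⟨fun s => add_nonneg (hx s) (hy s), ?_⟩
    simp only [Prod.fst_add, Prod.snd_add, map_add]
    exact (norm_add_le _ _).trans (add_le_add hx' hy')
  · rintro t ht x ⟨hx, hx'⟩
    refine ⟨fun s => mul_nonneg ht (hx s), ?_⟩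
    simp only [Prod.smul_fst, Prod.smul_snd, map_smul, norm_smul, smul_eq_mul,
      Real.norm_of_nonneg ht]
    exact mul_le_mul_of_nonneg_left hx' ht
  · ext z
    constructor
    · rintro ⟨⟨h1, h2⟩, h3, h4⟩
      have h5 := norm_nonneg (T z.1)
      have h6 := norm_nonneg (T (-z).1)
      simp only [Prod.snd_neg] at h4
      refine Prod.ext ?_ (by show z.2 = 0; linarith)
      ext s
      have := h3 s
      simp only [Prod.fst_neg, ContinuousMap.neg_apply] at this
      show z.1 s = 0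
      linarith [h1 s]
    · rintro rfl
      simp [cone]
  · have h1 : IsOpen {z : C(unitInterval, ℝ) × ℝ | ‖z.1 - 1‖ < 1} :=
      isOpen_lt (continuous_fst.sub continuous_const).norm continuous_const
    have h2 : IsOpen {z : C(unitInterval, ℝ) × ℝ | ‖T z.1‖ < z.2} :=
      isOpen_lt (T.continuous.comp continuous_fst).norm continuous_snd
    refine ⟨(1, ‖T 1‖ + 1), interior_maximal ?_ (h1.inter h2) ⟨by simp, by simp⟩⟩
    rintro z ⟨h3, h4⟩
    refine ⟨fun s => ?_, le_of_lt h4⟩
    have h5 := ((z.1 - 1).norm_coe_le_norm s).trans_lt h3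
    simp only [ContinuousMap.sub_apply, ContinuousMap.one_apply, Real.norm_eq_abs] at h5
    linarith [(abs_lt.1 h5).1]
  · rintro x y ⟨h1, h2⟩ ⟨h3, h4⟩
    have h5 := norm_nonneg (T x.1)
    have h6 := norm_nonneg (T (y - x).1)
    simp only [Prod.snd_sub] at h4
    refine max_le_max ?_ ?_
    · refine (ContinuousMap.norm_le _ (norm_nonneg _)).2 fun s => ?_
      refine le_trans ?_ (y.1.norm_coe_le_norm s)
      have := h3 s
      simp only [Prod.fst_sub, ContinuousMap.sub_apply] at this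
      rw [Real.norm_of_nonneg (h1 s), Real.norm_of_nonneg (by linarith [h1 s])]
      linarith
    · rw [Real.norm_of_nonneg (by linarith), Real.norm_of_nonneg (by linarith)]
      linarith
  · intro x hx v hv
    refine minimal {f | ∀ s, 0 ≤ f s} T T_inj (fun a ha b hb s => add_nonneg (ha s) (hb s))
      (fun s => le_rfl) (fun u y hu hy => ?_) x hx v hv
    exact (T_nonneg y).1 (ge_of_tendsto' hy fun n => (T_nonneg _).2 (hu n))
  · refine ⟨fun n => (-g (4 ^ n), -3 * (1 / 2) ^ n), fun n => ⟨fun s => ?_, ?_⟩,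
      ⟨0, fun n => ⟨fun s => ?_, ?_⟩⟩, ?_⟩
    · have : (s : ℝ) ^ 4 ^ (n + 1) ≤ (s : ℝ) ^ 4 ^ n :=
        pow_le_pow_of_le_one s.2.1 s.2.2 (Nat.pow_le_pow_right (by norm_num) n.le_succ)
      simp only [Prod.fst_sub, ContinuousMap.sub_apply, ContinuousMap.neg_apply, g,
        ContinuousMap.coe_mk]
      linarith
    · simp only [Prod.fst_sub, Prod.snd_sub, map_sub, map_neg]
      have h1 := norm_T_g_le n
      have h2 := norm_T_g_le (n + 1)
      have h3 := norm_sub_le (-T (g (4 ^ (n + 1)))) (-T (g (4 ^ n)))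
      rw [norm_neg, norm_neg] at h3
      rw [pow_succ (1 / 2 : ℝ)] at h2 ⊢
      linarith
    · simp only [zero_sub, Prod.fst_neg, neg_neg, g, ContinuousMap.coe_mk]
      exact pow_nonneg s.2.1 _
    · simp only [zero_sub, Prod.fst_neg, Prod.snd_neg, neg_neg]
      have h1 := norm_T_g_le n
      have h2 : (0 : ℝ) ≤ (1 / 2) ^ n := by positivity
      linarith
    · rintro ⟨l, hl⟩
      have h1 : Tendsto (fun n => -g (4 ^ n)) atTop (𝓝 l.1) := (continuous_fst.tendsto l).comp hl
      have h2 : Tendsto (fun n => T (-g (4 ^ n))) atTop (𝓝 (T l.1)) :=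
        (T.continuous.tendsto _).comp h1
      have h3 : Tendsto (fun n => T (-g (4 ^ n))) atTop (𝓝 0) := by
        refine squeeze_zero_norm (fun n => ?_)
          (tendsto_pow_atTop_nhds_zero_of_lt_one (r := 1 / 2) (by norm_num) (by norm_num))
        rw [map_neg, norm_neg]
        exact norm_T_g_le n
      have h4 : l.1 = 0 := T_inj (by rw [map_zero]; exact tendsto_nhds_unique h2 h3)
      have h5 : Tendsto (fun n => (-g (4 ^ n)) 1) atTop (𝓝 (l.1 1)) :=
        ((ContinuousEvalConst.continuous_eval_const (1 : unitInterval)).tendsto _).comp h1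
      rw [h4] at h5
      simp [g] at h5

end Pool.Agent.Results.MP_06b617_an.MinimalBound
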