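import Pool.Agent.Lib.MP_06b617_an.Cone

set_option autoImplicit false

namespace Pool.Agent.Results.MP_06b617_an.Normal

/-- The general question: in any real Banach space ordered by a closed cone `K`, if every order bounded
increasing sequence has a supremum, then the cone is normal. No separability is assumed. -/
theorem result {X : Type*} [NormedAddCommGroup X] [NormedSpace ℝ X] [CompleteSpace X]
    (K : Set X) (hclosed : IsClosed K)
    (hadd : ∀ x ∈ K, ∀ y ∈ K, x + y ∈ K) (hsmul : ∀ t : ℝ, 0 ≤ t → ∀ x ∈ K, t • x ∈ K)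
    (hpointed : K ∩ (-K) = {0})
    (hS : ∀ x : ℕ → X, (∀ n, x (n + 1) - x n ∈ K) → (∃ v, ∀ n, v - x n ∈ K) →
      ∃ s, (∀ n, s - x n ∈ K) ∧ ∀ v, (∀ n, v - x n ∈ K) → v - s ∈ K) :
    ∃ c : ℝ, 1 ≤ c ∧ ∀ x y : X, x ∈ K → y - x ∈ K → ‖x‖ ≤ c * ‖y‖ :=
  (Pool.Agent.Lib.MP_06b617_an.cone_results K hclosed hadd hsmul hpointed hS).1

end Pool.Agent.Results.MP_06b617_an.Normal
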